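import Pool.Agent.L0h13.GP.Main

/-!
# The growth of the sums of even and odd motives in the powers of a variety

Let `W` be a Weil cohomology theory with coefficient field `K` (crystalline cohomology over a perfect
field, say) on a class of smooth proper varieties closed under products. For a variety `Y` let

* `b(Y) = cohDim W Y` be the dimension of the whole cohomology,
* `c(Y) = evenOddDim W Y` the dimension of the largest direct summand of the motive `h(Y)`
  (homological equivalence, coefficients in `K`) which is the sum of an even and an odd motive,
* `ν(Y) = nonNeg W Y` the dimension of the non-negligible part of `h(Y)`, the complement of the largest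
  direct summand which is numerically trivial,
* `r(Y) = midRank ops Y` the rank of the group of cycles of codimension `dim Y` on `Y × Y` modulo
  numerical equivalence; it does not depend on `W`.

The sign conjecture `C⁺(X)` holds if and only if `c(X) = b(X)`, and then `c(X^n) = b(X)^n` for all `n`.

**Theorem.** Let `b = b(X)`.

1. `c(Y) ≤ ν(Y) ≤ b(Y)`, `ν(Y × Z) ≤ ν(Y) ν(Z)` and `r(Y) ≤ c(Y × Y)` for all `Y`, `Z`; and

     `r(X^n) ≤ c(X^(2n)) ≤ ν(X^(2n)) ≤ ν(X^n)^2 ≤ (n + 1)^(b^2) r(X^n)`  for all `n ≥ 1`.

   So up to a polynomial factor the sum of an even and an odd motive in `h(X^(2n))` is as large as the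
   group of numerical cycles on `X^n × X^n`, and as the whole non-negligible part.
2. Suppose `b > 0`. The numerically trivial combinations of self-correspondences of degree zero of all
   powers of `X` are nilpotent on cohomology if and only if `r(X^n) ≥ b^(2n) / (n + 1)^(b^2)` for all
   `n ≥ 1`, if and only if `c(X^(2n)) ≥ b^(2n) / (n + 1)^(b^2)` for all `n ≥ 1`, if and only if `c(X^n)` is
   not exponentially smaller than `b^n`. In particular this is so if `C⁺(X)` holds.

The proof. A numerically trivial operator `f` has trace zero against all algebraic operators with even
or odd image, so `c ≤ rank (1 - f)` if `f` is idempotent; and the numerically trivial operators form an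
ideal stable under external products. The elements of the group algebra of the symmetric group `S_n` which
are numerically trivial on `X^n` form a two-sided ideal, which is generated by a central idempotent `ε`. The
rest `1 - ε` acts on `H(X^n)` through a semisimple algebra of dimension at most `r(X^n)`, with a commutant
of dimension at most `(n + 1)^(b^2)`, so that the square of its rank is at most the product; the rank is at
least `ν(X^n)`. And `r(X^n)` dual pairs of cycles on `X^n × X^n` give that many copies of a power of the
Lefschetz motive in `h(X^(2n))`. (That the growth rate is an integer is the theorem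
`IntegralGrowthRate`.)
-/

set_option autoImplicit false

open CategoryTheory AlgebraicGeometry

universe u v w

namespace Pool.Agent.L0h13.Spare.GrowthAlternatives

open Pool.Agent.H914 VarClass Obj WeilCohomology Pool.Agent.N103.OC Pool.Agent.H447
  Pool.Agent.N536.HK Pool.Agent.L0h13.GP

/-- **The growth of the sums of even and odd motives in the powers of a variety.** -/
theorem result {k : Type u} [Field k] {𝒱 : VarClass k} {ops : CycleOps 𝒱}
    (W : WeilCohomology.{u, v} ops) :
    GeneralBounds W ∧
    ∀ X : 𝒱.Obj, PowerBounds W X ∧ NilIffLarge W X ∧ (SignStd W X → NilOnPowers W X) :=
  ⟨generalBounds W, fun X => ⟨powerBounds W X, nilIffLarge W X, fun h => nil_of_sign h⟩⟩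

end Pool.Agent.L0h13.Spare.GrowthAlternatives
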