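import Pool.Agent.L0h13.TS.Fin

/-!
# From finite fields to all fields: the conjecture D, dimension by dimension

Let `K` be any field of characteristic `p` and let `k` be an algebraic closure of a finite field
(or let `K` have characteristic zero and let `k` be an algebraic closure of the rational numbers). A
variety `X` over `K` is the generic fibre of a smooth projective family over a variety over `k`, and
a cycle of dimension `d` on `X` spreads out to a cycle on the total space. The specialization of a
numerically trivial cycle on `X` to a closed fibre `Y` need not be numerically trivial, as `Y` has
more cycles than `X`, so it does not help to know the conjecture D for the closed fibres. It does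
help to know it for the total spaces, and even in the same dimension `d`:

1. if the conjecture D is true for the cycles of dimension `d` on all smooth projective varieties over
   `k`, then it is true for the cycles of dimension `d` on all varieties over `K`;
2. if over `k` the Tate conjecture and the conjecture D hold for the cycles of **co**dimension `d`,
   then over `K` the conjecture D holds for the cycles of dimension `d`. For `d = 1` the conjecture
   D over `k` is known (Matsusaka), so the Tate conjecture for divisors on varieties over finite fields
   implies the conjecture D for one-cycles over all fields of characteristic `p`;
3. the conjecture D over all fields of characteristic `p` (in characteristic zero: over all fields,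
   for the cohomologies considered), for cycles of all dimensions, follows from the special case of
   the middle dimension over `k`: the intersection form on the cycles of dimension `m` on a variety
   `Y` of dimension `2 m` over `k` is nondegenerate modulo homological equivalence.

The idea for 1: let `T` be a smooth projective variety with a generically finite map to a
compactification of the total space, `γ` the correspondence from `T` to `Y`, and `t` a cycle on `T`
with image `s` in `Y`, the specialization of `z`. Moving `s` back to `T` by the transposed
correspondence we obtain a cycle `α` of dimension `d` on `T`. If `z` is numerically trivial on `X`,
then `α` is numerically trivial on `T`, since its intersection numbers are those of `z` with cycles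
on `X` itself, and hence `α` is homologically trivial by D for `T`. Therefore `s` is orthogonal to
the whole image of the cohomology of `T`, that is to the invariants of the fundamental group of
the base, and the form is nondegenerate on the invariants by the semisimplicity theorem of Deligne.
Hence `s` and `z` are homologically trivial.

The geometric facts used (spreading out, alterations, the specialization of intersection numbers
and of cohomology, the theorem on the fixed part and semisimplicity) are assumed, in the form
`SpreadsOut`.
-/

set_option autoImplicit false

open CategoryTheory AlgebraicGeometry

universe u v u' v'

namespace Pool.Agent.L0h13.Spare.TotalSpaces

open Pool.Agent.H914 Pool.Agent.H914.VarClass Pool.Agent.H447 Pool.Agent.W534 Pool.Agent.L0h13.TS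

/-- **The conjecture D for the cycles of dimension `d` on `X` follows (1) from the conjecture D for
the cycles of dimension `d` on the total spaces `T`, (2) from the conjecture of Tate and the
conjecture D for the cycles of codimension `d` on the total spaces, (3) from the conjecture D in the
middle dimension for the varieties over `k`.** -/
theorem result {K : Type u'} [Field K] {𝒱' : VarClass K} {ops' : CycleOps 𝒱'}
    (W' : WeilCohomology.{u', v'} ops') (X : 𝒱'.Obj) (d : ℕ)
    {k : Type u} [Field k] {𝒱 : VarClass k} {ops : CycleOps 𝒱} (W : WeilCohomology.{u, v} ops) :
    (AllSpreadOut W' X d W (fun T => DInDim W T d) → DInDim W' X d) ∧
    (∀ {p : ℕ} (Φ : FrobSystem W p),
      AllSpreadOut W' X d W (fun T => TateIn Φ T d ∧ HomEqNumIn W T d) → DInDim W' X d) ∧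
    (HasSections W → DInMiddle W → AllSpreadOut W' X d W (fun _ => True) → DInDim W' X d) :=
  ⟨dInDim, fun Φ h => dInDim_of_tate Φ h, fun h1 h2 h3 => dInDim_of_middle h1 h2 h3⟩

end Pool.Agent.L0h13.Spare.TotalSpaces
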